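import Pool.Agent.H61DIS.Bridge
import Pool.Agent.H61DIS.Claw2

/-!
# Claw-free graphs: the bound `6^(n/9)`, and it is attained
-/

namespace Pool.Agent.Results.MP_1579d4_co.ClawFree

open H61DIS

/-- `G` is claw-free: no vertex has three pairwise nonadjacent distinct neighbours. -/
def IsClawFree {V : Type*} (G : SimpleGraph V) : Prop :=
  ∀ v a b c, G.Adj v a → G.Adj v b → G.Adj v c → a ≠ b → a ≠ c → b ≠ c →
    G.Adj a b ∨ G.Adj a c ∨ G.Adj b c

theorem upper {V : Type} [Fintype V] (G : SimpleGraph V) (hG : IsClawFree G) :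
    (mi2 G : ℝ) ≤ (6 : ℝ) ^ ((Fintype.card V : ℝ) / 9) := by
  set y : ℝ := (6 : ℝ) ^ ((1 : ℝ) / 9) with hy
  have hy0 : 0 < y := by positivity
  have hy9 : y ^ 9 = 6 := by
    rw [hy, ← Real.rpow_natCast, ← Real.rpow_mul (by norm_num)]
    norm_num
  set x : ℝ := 1 / y with hx
  have hx0 : 0 < x := by positivity
  have hx9 : x ^ 9 = 1 / 6 := by
    rw [hx, div_pow, hy9]; norm_num
  have hxl : 8194 / 10000 ≤ x := by
    by_contra hlt
    push Not at hlt
    have := pow_lt_pow_left₀ hlt hx0.le (by norm_num : (9 : ℕ) ≠ 0)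
    rw [hx9] at this
    norm_num at this
  have hxu : x ≤ 8195 / 10000 := by
    by_contra hlt
    push Not at hlt
    have := pow_lt_pow_left₀ hlt (by norm_num) (by norm_num : (9 : ℕ) ≠ 0)
    rw [hx9] at this
    norm_num at this
  have h1 := (claw_main (G := G) (fun v a b c => hG v a b c) hxl hxu hx9 Finset.univ).1
  have h2 := mi2_le_of_h hx0 h1
  have h3 : (1 / x) ^ (Fintype.card V) = (6 : ℝ) ^ ((Fintype.card V : ℝ) / 9) := by
    have e : 1 / x = y := by rw [hx]; field_simp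
    rw [e, hy, ← Real.rpow_natCast, ← Real.rpow_mul (by norm_num)]
    congr 1
    ring
  rw [h3] at h2
  exact h2

/-- `a` disjoint copies of the `3 × 3` rook graph and `r` isolated vertices. -/
def rooks (a r : ℕ) : SimpleGraph ((Fin a × Fin 3 × Fin 3) ⊕ Fin r) where
  Adj p q := match p, q with
    | Sum.inl p, Sum.inl q =>
      p.1 = q.1 ∧ ((p.2.1 = q.2.1 ∧ p.2.2 ≠ q.2.2) ∨ (p.2.1 ≠ q.2.1 ∧ p.2.2 = q.2.2))
    | _, _ => False
  symm := ⟨by
    rintro (p | p) (q | q) h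
    · exact ⟨h.1.symm, h.2.imp (fun k => ⟨k.1.symm, fun e => k.2 e.symm⟩)
        (fun k => ⟨fun e => k.1 e.symm, k.2.symm⟩)⟩
    · exact h
    · exact h
    · exact h⟩
  loopless := ⟨by
    rintro (p | p) h
    · rcases h.2 with k | k
      · exact k.2 rfl
      · exact k.1 rfl
    · exact h⟩

theorem rooks_clawFree (a r : ℕ) : IsClawFree (rooks a r) := by
  rintro (v | v) (p | p) (q | q) (s | s) hp hq hs hpq hps hqs
  all_goals first | exact hp.elim | exact hq.elim | exact hs.elim | skip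
  obtain ⟨v1, v2, v3⟩ := v
  obtain ⟨p1, p2, p3⟩ := p
  obtain ⟨q1, q2, q3⟩ := q
  obtain ⟨s1, s2, s3⟩ := s
  simp only [rooks, ne_eq, Sum.inl.injEq, Prod.mk.injEq] at *
  obtain ⟨rfl, hp⟩ := hp
  obtain ⟨rfl, hq⟩ := hq
  obtain ⟨rfl, hs⟩ := hs
  simp only [true_and] at *
  rcases hp with ⟨hp, hp'⟩ | ⟨hp, hp'⟩ <;> rcases hq with ⟨hq, hq'⟩ | ⟨hq, hq'⟩ <;>
    rcases hs with ⟨hs, hs'⟩ | ⟨hs, hs'⟩ <;> subst_vars <;> simp_all

/-- The 2-dominating independent set given by a permutation in each copy. -/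
def perms {a r : ℕ} (σ : Fin a → Equiv.Perm (Fin 3)) : Set ((Fin a × Fin 3 × Fin 3) ⊕ Fin r) :=
  {p | match p with
    | Sum.inl p => σ p.1 p.2.1 = p.2.2
    | Sum.inr _ => True}

theorem perms_isTwoDIS {a r : ℕ} (σ : Fin a → Equiv.Perm (Fin 3)) :
    IsTwoDIS (rooks a r) (perms σ) := by
  constructor
  · rintro (⟨p1, p2, p3⟩ | p) hp (⟨q1, q2, q3⟩ | q) hq hadj
    · simp only [perms, Set.mem_setOf_eq] at hp hq
      simp only [rooks] at hadj
      obtain ⟨rfl, hadj⟩ := hadj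
      rcases hadj with ⟨rfl, h2⟩ | ⟨h1, rfl⟩
      · exact h2 (hp.symm.trans hq)
      · exact h1 ((σ p1).injective (hp.trans hq.symm))
    · exact hadj
    · exact hadj
    · exact hadj
  · rintro (⟨p1, p2, p3⟩ | p) hp
    · have hp' : σ p1 p2 ≠ p3 := hp
      have e1 : (Sum.inl (p1, p2, σ p1 p2) : (Fin a × Fin 3 × Fin 3) ⊕ Fin r) ∈
          (rooks a r).neighborSet (Sum.inl (p1, p2, p3)) ∩ perms σ := by
        refine ⟨?_, rfl⟩
        exact ⟨rfl, Or.inl ⟨rfl, fun e => hp' e.symm⟩⟩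
      have e2 : (Sum.inl (p1, (σ p1).symm p3, p3) : (Fin a × Fin 3 × Fin 3) ⊕ Fin r) ∈
          (rooks a r).neighborSet (Sum.inl (p1, p2, p3)) ∩ perms σ := by
        refine ⟨?_, ?_⟩
        · refine ⟨rfl, Or.inr ⟨?_, rfl⟩⟩
          intro e
          have e' : p2 = (σ p1).symm p3 := e
          exact hp' (by rw [e']; simp)
        · show σ p1 ((σ p1).symm p3) = p3
          simp
      have hne : (Sum.inl (p1, p2, σ p1 p2) : (Fin a × Fin 3 × Fin 3) ⊕ Fin r) ≠
          Sum.inl (p1, (σ p1).symm p3, p3) := by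
        intro e
        simp only [Sum.inl.injEq, Prod.mk.injEq, true_and] at e
        exact hp' e.2
      have hsub : ({Sum.inl (p1, p2, σ p1 p2), Sum.inl (p1, (σ p1).symm p3, p3)} :
          Set ((Fin a × Fin 3 × Fin 3) ⊕ Fin r)) ⊆
          (rooks a r).neighborSet (Sum.inl (p1, p2, p3)) ∩ perms σ := by
        intro y hy
        rcases hy with rfl | rfl
        · exact e1
        · exact e2
      rw [← Set.ncard_pair hne]
      exact Set.ncard_le_ncard hsub (Set.toFinite _)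
    · exact absurd trivial hp

theorem lower (a r : ℕ) : 6 ^ a ≤ mi2 (rooks a r) := by
  have hinj : Function.Injective
      (fun σ : Fin a → Equiv.Perm (Fin 3) => (perms σ : Set ((Fin a × Fin 3 × Fin 3) ⊕ Fin r))) := by
    intro σ τ h
    funext i
    ext j
    have h1 : (Sum.inl (i, j, σ i j) : (Fin a × Fin 3 × Fin 3) ⊕ Fin r) ∈
        (perms σ : Set ((Fin a × Fin 3 × Fin 3) ⊕ Fin r)) := rfl
    have h2 : (Sum.inl (i, j, σ i j) : (Fin a × Fin 3 × Fin 3) ⊕ Fin r) ∈
        (perms τ : Set ((Fin a × Fin 3 × Fin 3) ⊕ Fin r)) := by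
      have h' : (perms σ : Set ((Fin a × Fin 3 × Fin 3) ⊕ Fin r)) = perms τ := h
      rw [← h']; exact h1
    have h3 : τ i j = σ i j := h2
    rw [h3]
  have hsub : Set.range (fun σ : Fin a → Equiv.Perm (Fin 3) =>
      (perms σ : Set ((Fin a × Fin 3 × Fin 3) ⊕ Fin r))) ⊆
      {D | IsTwoDIS (rooks a r) D} := by
    rintro _ ⟨σ, rfl⟩
    exact perms_isTwoDIS σ
  have hc := Set.ncard_le_ncard hsub (Set.toFinite _)
  rw [← Set.image_univ, Set.ncard_image_of_injective _ hinj, Set.ncard_univ, Nat.card_eq_fintype_card,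
    Fintype.card_fun, Fintype.card_perm, Fintype.card_fin, Fintype.card_fin] at hc
  exact hc

/-- Claw-free graphs on `n` vertices have at most `6^(n/9)` 2-dominating independent sets; some
claw-free graph on `n` vertices has at least `6^⌊n/9⌋` of them, so that the bound is attained
whenever `9` divides `n`. -/
theorem result :
    (∀ (V : Type) [Fintype V] (G : SimpleGraph V), IsClawFree G →
      (mi2 G : ℝ) ≤ (6 : ℝ) ^ ((Fintype.card V : ℝ) / 9)) ∧
    (∀ n : ℕ, ∃ (V : Type) (_ : Fintype V) (G : SimpleGraph V), Fintype.card V = n ∧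
      IsClawFree G ∧ 6 ^ (n / 9) ≤ mi2 G) := by
  refine ⟨fun V _ G hG => upper G hG, fun n => ?_⟩
  refine ⟨(Fin (n / 9) × Fin 3 × Fin 3) ⊕ Fin (n % 9), inferInstance, rooks (n / 9) (n % 9), ?_,
    rooks_clawFree _ _, lower _ _⟩
  simp only [Fintype.card_sum, Fintype.card_prod, Fintype.card_fin]
  omega

end Pool.Agent.Results.MP_1579d4_co.ClawFree
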