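import Pool.Agent.H61DIS.Bridge
import Pool.Agent.H61DIS.Gen4

/-!
# Every graph on `n` vertices has at most `(7/2)^(n/6)` 2-dominating independent sets
-/

namespace Pool.Agent.Results.MP_1579d4_co.SevenHalves

open H61DIS

theorem result : ∀ (n : ℕ) (G : SimpleGraph (Fin n)),
    (mi2 G : ℝ) ≤ (7 / 2 : ℝ) ^ ((n : ℝ) / 6) := by
  intro n G
  -- the sixth root
  set y : ℝ := (7 / 2 : ℝ) ^ ((1 : ℝ) / 6) with hy
  have hy0 : 0 < y := by positivity
  have hy6 : y ^ 6 = 7 / 2 := by
    rw [hy, ← Real.rpow_natCast, ← Real.rpow_mul (by norm_num)]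
    norm_num
  set x : ℝ := 1 / y with hx
  have hx0 : 0 < x := by positivity
  have hx6 : x ^ 6 = 2 / 7 := by
    rw [hx, div_pow, hy6]; norm_num
  have hxl : 8115 / 10000 ≤ x := by
    by_contra hlt
    push Not at hlt
    have := pow_lt_pow_left₀ hlt hx0.le (by norm_num : (6 : ℕ) ≠ 0)
    rw [hx6] at this
    norm_num at this
  have hxu : x ≤ 8116 / 10000 := by
    by_contra hlt
    push Not at hlt
    have := pow_lt_pow_left₀ hlt (by norm_num) (by norm_num : (6 : ℕ) ≠ 0)
    rw [hx6] at this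
    norm_num at this
  have h1 := (gen_main (G := G) hxl hxu hx6 Finset.univ).1
  have h2 := mi2_le_of_h hx0 h1
  have h3 : (1 / x) ^ (Fintype.card (Fin n)) = (7 / 2 : ℝ) ^ ((n : ℝ) / 6) := by
    have e : 1 / x = y := by rw [hx]; field_simp
    rw [e, Fintype.card_fin, hy, ← Real.rpow_natCast, ← Real.rpow_mul (by norm_num)]
    congr 1
    ring
  rw [h3] at h2
  exact h2

end Pool.Agent.Results.MP_1579d4_co.SevenHalves
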